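import Pool.Agent.R537.LR.Stm
import Pool.Agent.H612.CollectPoly

/-!
# The reduction for `p = 0` is computable in polynomial time
-/

set_option autoImplicit false

namespace Pool.Agent.NPC.R619LRP0

open Pool.Agent.NPC Pool.Agent.NPC.ER Pool.Agent.NPC.R537LR

section

variable {α : Type} [TEnc α]

theorem poly_con_vars {f : α → ER.Con} (hf : Poly f) : Poly (fun a => (f a).vars) := by
  have h0 : Poly (fun a => (f a).code) := poly_con_code hf
  have h1 : Poly (fun a => decide ((f a).code.1 = 0)) := Poly.decide_eq (Poly.fst h0) (Poly.const 0)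
  have h : Poly (fun a => if (f a).code.1 = 0 then [(f a).code.2.1] else
      [(f a).code.2.1, (f a).code.2.2.1, (f a).code.2.2.2]) :=
    Poly.ite h1 (Poly.cons (Poly.fst (Poly.snd h0)) (Poly.const _))
      (Poly.cons (Poly.fst (Poly.snd h0)) (Poly.cons (Poly.fst (Poly.snd (Poly.snd h0)))
        (Poly.cons (Poly.snd (Poly.snd (Poly.snd h0))) (Poly.const _))))
  refine h.congr fun a => ?_
  cases f a <;> simp [Con.code, Con.vars]

theorem poly_svars : Poly (fun S : List ER.Con => svars S) :=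
  Poly.flatMap (F := fun _ c => Con.vars c) Poly.id (poly_con_vars (Poly.snd Poly.id))

theorem upoly_n0 : UPoly n0 :=
  UPoly.add (UPoly.add (UPoly.mul (UPoly.const 2) (UPoly.length poly_svars))
    (UPoly.mul (UPoly.const 2) (UPoly.length Poly.id))) (UPoly.const 3)

theorem poly_ixv {V : α → List ℕ} {v : α → ℕ} (hV : Poly V) (hv : Poly v) :
    Poly (fun a => ixv (V a) (v a)) :=
  Poly.add (Poly.mul (Poly.const 2) (Pool.Agent.NPC.H612.poly_idxOf hV hv)) (Poly.const 1)

theorem poly_gate {t i j k : α → ℕ} (z : ℤ) (ht : Poly t) (hi : Poly i) (hj : Poly j)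
    (hk : Poly k) : Poly (fun a => ((t a, i a, j a, k a, z) : Gate)) :=
  Poly.pair ht (Poly.pair hi (Poly.pair hj (Poly.pair hk (Poly.const z))))

theorem gcon_eq (V : List ℕ) (c : ER.Con) (t : ℕ) : gcon V c t =
    if c.code.1 = 0 then [(1, 0, 0, ixv V c.code.2.1, 8)]
    else if c.code.1 = 1 then [(2, ixv V c.code.2.1, ixv V c.code.2.2.1, 2 * t + 2, 0),
      (2, ixv V c.code.2.2.2, 0, 2 * t + 2, 0)]
    else [(3, ixv V c.code.2.1, ixv V c.code.2.2.1, ixv V c.code.2.2.2, 0)] := by
  cases c <;> rfl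

theorem poly_gcon {V : α → List ℕ} {c : α → ER.Con} {t : α → ℕ} (hV : Poly V) (hc : Poly c)
    (ht : Poly t) : Poly (fun a => gcon (V a) (c a) (t a)) := by
  have h0 : Poly (fun a => (c a).code) := poly_con_code hc
  have d0 : Poly (fun a => decide ((c a).code.1 = 0)) :=
    Poly.decide_eq (Poly.fst h0) (Poly.const 0)
  have d1 : Poly (fun a => decide ((c a).code.1 = 1)) :=
    Poly.decide_eq (Poly.fst h0) (Poly.const 1)
  have e1 := poly_ixv hV (Poly.fst (Poly.snd h0))
  have e2 := poly_ixv hV (Poly.fst (Poly.snd (Poly.snd h0)))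
  have e3 := poly_ixv hV (Poly.snd (Poly.snd (Poly.snd h0)))
  have et : Poly (fun a => 2 * t a + 2) := Poly.add (Poly.mul (Poly.const 2) ht) (Poly.const 2)
  refine (Poly.ite d0 (Poly.cons (poly_gate 8 (Poly.const 1) (Poly.const 0) (Poly.const 0) e1)
      (Poly.const []))
    (Poly.ite d1 (Poly.cons (poly_gate 0 (Poly.const 2) e1 e2 et)
      (Poly.cons (poly_gate 0 (Poly.const 2) e3 (Poly.const 0) et) (Poly.const [])))
      (Poly.cons (poly_gate 0 (Poly.const 3) e1 e2 e3) (Poly.const [])))).congr fun a => ?_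
  exact (gcon_eq _ _ _).symm

theorem poly_G0 : Poly G0 := by
  refine Poly.cons (Poly.const _) ?_
  refine Poly.flatMap (F := fun S (p : ER.Con × ℕ) => gcon (svars S) p.1 p.2)
    (Poly.zipIdx Poly.id) ?_
  exact poly_gcon (poly_svars.comp (Poly.fst Poly.id)) (Poly.fst (Poly.snd Poly.id))
    (Poly.snd (Poly.snd Poly.id))

theorem upoly_T0 {R : α → List RName} {C : α → List Col} (hR : Poly R) (hC : Poly C) :
    UPoly (fun a => T0 (R a) (C a)) := by
  have h1 : UPoly (fun a => (R a).length * (C a).length) :=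
    UPoly.mul (UPoly.length hR) (UPoly.length hC)
  have h2 := h1.eval (Polynomial.C 9 * Polynomial.X ^ 4 + Polynomial.C 1)
  refine Poly.congr h2 fun a => ?_
  simp only [Polynomial.eval_add, Polynomial.eval_mul, Polynomial.eval_C, Polynomial.eval_pow,
    Polynomial.eval_X, T0]

theorem poly_natRat {n : α → ℕ} (hn : Poly n) : Poly (fun a => ((n a : ℕ) : ℚ)) := by
  have h1 : Poly (fun a => ((false, n a), (1 : ℕ))) :=
    Poly.pair (Poly.pair (Poly.const false) hn) (Poly.const 1)
  refine Poly.of_toT ((Poly.toT' h1).congr fun a => ?_)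
  change toT ((false, n a), (1 : ℕ)) = toT ((((n a : ℕ) : ℚ)).num, (((n a : ℕ) : ℚ)).den)
  rw [Rat.num_natCast, Rat.den_natCast]
  change T.node (toT (false, n a)) (toT (1 : ℕ)) = T.node (toT ((n a : ℕ) : ℤ)) (toT (1 : ℕ))
  congr 1

theorem poly_intToRat {z : α → ℤ} (hz : Poly z) : Poly (fun a => ((z a : ℤ) : ℚ)) := by
  have h : Poly (fun a => (z a, (1 : ℕ))) := Poly.pair hz (Poly.const 1)
  have h2 : Poly (fun a => (((z a : ℤ) : ℚ).num, ((z a : ℤ) : ℚ).den)) := h.congr fun a => by simp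
  exact h2

theorem poly_invRat {n : α → ℕ} (hn : Poly n) : Poly (fun a => 1 / ((n a + 1 : ℕ) : ℚ)) := by
  have h1 : Poly (fun a => ((1 : ℤ), n a + 1)) := Poly.pair (Poly.const 1) (Poly.succ hn)
  have h2 : Poly (fun a => ((1 / ((n a + 1 : ℕ) : ℚ)).num, (1 / ((n a + 1 : ℕ) : ℚ)).den)) := by
    refine h1.congr fun a => ?_
    have e1 : (1 / ((n a + 1 : ℕ) : ℚ)).num = 1 := by
      rw [one_div, Rat.inv_natCast_num_of_pos (Nat.succ_pos _)]
    have e2 : (1 / ((n a + 1 : ℕ) : ℚ)).den = n a + 1 := by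
      rw [one_div, Rat.inv_natCast_den_of_pos (Nat.succ_pos _)]
    rw [e1, e2]
  exact h2

theorem poly_f0 (h : Poly (fun x : RName × Col => ent x.1 x.2)) {r : α → RName} {c : α → Col}
    {s t : α → ℕ} (hr : Poly r) (hc : Poly c) (hs : Poly s) (ht : Poly t) :
    Poly (fun a => f0 (r a) (c a) (s a) (t a)) := by
  have h1 : Poly (fun a => ent (r a) (c a)) :=
    Poly.comp (g := fun x : RName × Col => ent x.1 x.2) h (Poly.pair hr hc)
  refine (Poly.optCases (g := fun a => 1 / ((s a + t a + 1 : ℕ) : ℚ))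
    (h := fun _ (q : ℤ) => (q : ℚ)) h1 (poly_invRat (Poly.add hs ht))
    (poly_intToRat (Poly.snd Poly.id))).congr fun a => ?_
  unfold f0
  cases ent (r a) (c a) <;> rfl

theorem poly_unk (h : Poly (fun x : RName × Col => ent x.1 x.2)) {R : α → List RName}
    {C : α → List Col} (hR : Poly R) (hC : Poly C) : Poly (fun a => unk (R a) (C a)) := by
  refine Poly.sum (Poly.flatMap (F := fun a r => (C a).map fun c =>
    if ent r c = none then 1 else 0) hR ?_)
  refine Poly.map (F := fun (p : α × RName) (c : Col) => if ent p.2 c = none then 1 else 0)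
    (hC.comp (Poly.fst Poly.id)) ?_
  have h1 : Poly (fun p : (α × RName) × Col => ent p.1.2 p.2) :=
    Poly.comp (g := fun x : RName × Col => ent x.1 x.2) h
      (Poly.pair (Poly.snd (Poly.fst Poly.id)) (Poly.snd Poly.id))
  exact Poly.ite ((Poly.decide_eq h1 (Poly.const none)).congr fun a =>
    decide_eq_decide.2 Iff.rfl) (Poly.const 1) (Poly.const 0)

end

/-- The reduction for `p = 0` is computable in polynomial time. -/
theorem t_P0 (h1 : S_PB) (h2 : S_PC) : S_P0 := by
  obtain ⟨hrow, hcol, hent, -⟩ := h2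
  have hR : Poly R0 := hrow _ _ upoly_n0
  have hC : Poly C0 := hcol _ _ _ upoly_n0 poly_G0
  have hT : UPoly (fun S : List ER.Con => T0 (R0 S) (C0 S)) := upoly_T0 hR hC
  have hB : Poly (fun S : List ER.Con => blk (T0 (R0 S) (C0 S)) f0 (R0 S) (C0 S)) := by
    refine h1 (List ER.Con) RName Col (fun S => T0 (R0 S) (C0 S)) (fun _ => f0) R0 C0 hT hR hC ?_
    exact poly_f0 hent (Poly.fst (Poly.snd Poly.id)) (Poly.fst (Poly.snd (Poly.snd Poly.id)))
      (Poly.fst (Poly.snd (Poly.snd (Poly.snd Poly.id))))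
      (Poly.snd (Poly.snd (Poly.snd (Poly.snd Poly.id))))
  have hU : Poly (fun S : List ER.Con => unk (R0 S) (C0 S) * T0 (R0 S) (C0 S) ^ 2 + 1) := by
    refine (Poly.succ (Poly.mul (poly_unk hent hR hC) (Poly.mul hT.toPoly hT.toPoly))).congr
      fun S => ?_
    rw [sq]
  exact Poly.pair hB (Poly.pair (Poly.const 3) (poly_natRat hU))

end Pool.Agent.NPC.R619LRP0
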